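import Pool.Agent.TH550.WAP.Fix
import Pool.Agent.TH550.WAP.Scalar

/-!
# Nonexpansive fixed points for semigroups with an invariant mean on `WAP(S)`

Let `S` be a semitopological semigroup (separability is not assumed) such that `WAP(S)` has a left
invariant mean. Then every weakly separately continuous, weakly quasi-equicontinuous and
`Q`-nonexpansive representation of `S` on a nonempty weakly compact convex subset of a Hausdorff
locally convex space `(E, Q)` has a common fixed point.

`𝕂` is the scalar field of `C_b(S)` and `𝕜` the scalar field of `E`; each may be `ℝ` or `ℂ`.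
The subset `C` is a subset of `E` with its weak topology, which is `WeakSpace 𝕜 E`.
-/

set_option autoImplicit false

open Topology BoundedContinuousFunction Pool.Agent.TH550.WAP

namespace Pool.Agent.Results.MP_c68506_an.FixedPoint

theorem result
    {S : Type*} [Semigroup S] [TopologicalSpace S] [SeparatelyContinuousMul S]
    {𝕂 : Type*} [RCLike 𝕂] (hS : ∃ m : (S →ᵇ 𝕂) → 𝕂, IsLIM m)
    {𝕜 : Type*} [RCLike 𝕜] {E : Type*} [AddCommGroup E] [Module 𝕜 E] [Module ℝ E]
    [IsScalarTower ℝ 𝕜 E] [TopologicalSpace E] [T2Space E]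
    {ι : Type*} (q : ι → Seminorm 𝕜 E) (hq : WithSeminorms q)
    (C : Set (WeakSpace 𝕜 E)) (hcompact : IsCompact C) (hne : C.Nonempty)
    (hconvex : Convex ℝ (toWeakSpace 𝕜 E ⁻¹' C))
    (T : S → C → C) (hT : IsRep q C T) :
    ∃ x : C, ∀ s : S, T s x = x := by
  obtain ⟨m, hm⟩ := hS
  obtain ⟨m', hm'⟩ := exists_complex hm
  exact exists_fixed hq hm' hcompact hne hconvex hT

end Pool.Agent.Results.MP_c68506_an.FixedPoint
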